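import Pool.Agent.Zk72.NS.Adv

/-!
# EXI, MON (modules for helper72): paths from a box to far away cross the annulus inside it
-/

set_option autoImplicit false

namespace Pool.Agent.Zk47.NS

open H974 Finset H342P H984P H984N H12S H389NS Pool.Agent.Zk36.TT Pool.Agent.Zk72.NS

theorem sd_le {v x : Vtx} {k : ℤ} : sd v x ≤ k ↔ |v.1 - x.1| ≤ k ∧ |v.2 - x.2| ≤ k := by
  unfold sd
  exact max_le_iff

theorem mem_blk_sd {v : Vtx} {k : ℕ} {e : Edg} :
    e ∈ blk v k ↔ sd v (src e) ≤ k ∧ sd v (tgt e) ≤ k := by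
  obtain ⟨x, y, _ | _⟩ := e
  · rw [blk, mem_RE_false, sd_le, sd_le, abs_le, abs_le, abs_le, abs_le]
    simp only [src_mk, tgt_false]
    omega
  · rw [blk, mem_RE_true, sd_le, sd_le, abs_le, abs_le, abs_le, abs_le]
    simp only [src_mk, tgt_true]
    omega

theorem mem_bdB_sd {v x : Vtx} {k : ℕ} : x ∈ bdB v k ↔ sd v x = k := by
  unfold bdB sd
  rw [Set.mem_ofPred_eq, abs_sub_comm x.1, abs_sub_comm x.2]
  constructor
  · rintro ⟨h1, h2, h3 | h3⟩
    · rw [h3]; exact max_eq_left h2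
    · rw [h3]; exact max_eq_right h1
  · intro h
    have h1 := le_max_left |v.1 - x.1| |v.2 - x.2|
    have h2 := le_max_right |v.1 - x.1| |v.2 - x.2|
    refine ⟨by omega, by omega, ?_⟩
    rcases max_choice |v.1 - x.1| |v.2 - x.2| with h3 | h3
    · left; rw [← h3, h]
    · right; rw [← h3, h]

/-- adjacent vertices: the distance changes by at most one -/
theorem sd_adj {G : Set Edg} {v x y : Vtx} (h : Adj G x y) : sd v y ≤ sd v x + 1 := by
  have key : ∀ e : Edg, sd v (tgt e) ≤ sd v (src e) + 1 ∧ sd v (src e) ≤ sd v (tgt e) + 1 := by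
    rintro ⟨a, b, _ | _⟩
    · simp only [src_mk, tgt_false]
      constructor
      · rw [sd_le]
        have h1 := (sd_le (v := v) (x := (a, b))).1 le_rfl
        rw [abs_le, abs_le] at h1
        rw [abs_le, abs_le]
        simp only at h1 ⊢
        omega
      · rw [sd_le]
        have h1 := (sd_le (v := v) (x := (a, b + 1))).1 le_rfl
        rw [abs_le, abs_le] at h1
        rw [abs_le, abs_le]
        simp only at h1 ⊢
        omega
    · simp only [src_mk, tgt_true]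
      constructor
      · rw [sd_le]
        have h1 := (sd_le (v := v) (x := (a, b))).1 le_rfl
        rw [abs_le, abs_le] at h1
        rw [abs_le, abs_le]
        simp only at h1 ⊢
        omega
      · rw [sd_le]
        have h1 := (sd_le (v := v) (x := (a + 1, b))).1 le_rfl
        rw [abs_le, abs_le] at h1
        rw [abs_le, abs_le]
        simp only at h1 ⊢
        omega
  obtain ⟨e, _, ⟨rfl, rfl⟩ | ⟨rfl, rfl⟩⟩ := h
  · exact (key e).1
  · exact (key e).2

/-- the first vertex at distance `k` -/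
theorem first_out {G : Set Edg} {v p q : Vtx} {k : ℕ} (h : Reach G p q) :
    sd v p ≤ k → (k : ℤ) ≤ sd v q →
    ∃ w, sd v w = k ∧ Reach (G ∩ ↑(blk v k)) p w ∧ Reach G w q := by
  induction h using Relation.ReflTransGen.head_induction_on with
  | refl => intro h1 h2; exact ⟨q, le_antisymm h1 h2, Reach.refl _ _, Reach.refl _ _⟩
  | head hs hr ih =>
    rename_i a c
    intro h1 h2
    rcases eq_or_lt_of_le h1 with h3 | h3
    · exact ⟨a, h3, Reach.refl _ _, Relation.ReflTransGen.head hs hr⟩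
    · have h4 := sd_adj (v := v) hs
      obtain ⟨w, h5, h6, h7⟩ := ih (by omega) h2
      refine ⟨w, h5, Relation.ReflTransGen.head ?_ h6, h7⟩
      obtain ⟨e, he, hc⟩ := hs
      refine ⟨e, ⟨he, ?_⟩, hc⟩
      rw [Finset.mem_coe, mem_blk_sd]
      rcases hc with ⟨h8, h9⟩ | ⟨h8, h9⟩
      · rw [h8, h9]; omega
      · rw [h8, h9]; omega

/-- from outside: the first vertex at distance `d` -/
theorem first_in {H : Set Edg} {v w p : Vtx} {d : ℕ} (h : Reach H w p) :
    sd v p ≤ d → (d : ℤ) ≤ sd v w →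
    ∃ u, sd v u = d ∧ Reach (H \ ↑(blk v d)) w u ∧ Reach H u p := by
  induction h using Relation.ReflTransGen.head_induction_on with
  | refl => intro h1 h2; exact ⟨p, le_antisymm h1 h2, Reach.refl _ _, Reach.refl _ _⟩
  | head hs hr ih =>
    rename_i a c
    intro h1 h2
    rcases eq_or_lt_of_le h2 with h3 | h3
    · exact ⟨a, h3.symm, Reach.refl _ _, Relation.ReflTransGen.head hs hr⟩
    · have h4 := sd_adj (v := v) hs.symm
      obtain ⟨u, h5, h6, h7⟩ := ih h1 (by omega)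
      refine ⟨u, h5, Relation.ReflTransGen.head ?_ h6, h7⟩
      obtain ⟨e, he, hc⟩ := hs
      refine ⟨e, ⟨he, ?_⟩, hc⟩
      rw [Finset.mem_coe, mem_blk_sd]
      rcases hc with ⟨h8, h9⟩ | ⟨h8, h9⟩
      · rw [h8, h9]; omega
      · rw [h8, h9]; omega

theorem t_EXI : S_EXI := by
  intro v d k G p q hdk hp hq h
  obtain ⟨w, h1, h2, h3⟩ := first_out (k := k) h (by omega) hq
  obtain ⟨u, h4, h5, h6⟩ := first_in (d := d) h2.symm hp (by rw [h1]; exact_mod_cast hdk)
  refine ⟨u, mem_bdB_sd.2 h4, w, mem_bdB_sd.2 h1, ?_, (h6.symm).mono Set.inter_subset_left, h3⟩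
  refine h5.symm.mono ?_
  rintro e ⟨⟨he1, he2⟩, he3⟩
  refine ⟨he1, ?_⟩
  rw [Finset.coe_sdiff]
  exact ⟨he2, he3⟩

theorem blk_sub {v : Vtx} {d k : ℕ} (h : d ≤ k) : blk v d ⊆ blk v k := by
  intro e he
  rw [mem_blk_sd] at he ⊢
  omega

theorem ann_sub {v : Vtx} {d d' k' k : ℕ} (h1 : d ≤ d') (h3 : k' ≤ k) :
    blk v k' \ blk v d' ⊆ blk v k \ blk v d :=
  Finset.sdiff_subset_sdiff (blk_sub h3) (blk_sub h1)

theorem t_MON : S_MON := by
  rintro v d d' k' k G h1 h2 h3 ⟨u, hu, u', hu', ⟨w, hw, hr⟩, ⟨w', hw', hr'⟩, hn⟩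
  rw [mem_bdB_sd] at hu hu' hw hw'
  obtain ⟨x, hx, y, hy, a1, a2, a3⟩ := t_EXI v d' k' _ u w h2 (by omega) (by omega) hr
  obtain ⟨x', hx', y', hy', b1, b2, b3⟩ := t_EXI v d' k' _ u' w' h2 (by omega) (by omega) hr'
  have hsub : G ∩ ↑(blk v k' \ blk v d') ⊆ G ∩ ↑(blk v k \ blk v d) :=
    Set.inter_subset_inter_right _ (Finset.coe_subset.2 (ann_sub h1 h3))
  have hsub2 : ∀ A B : Set Edg, (G ∩ A) ∩ B ⊆ G ∩ B := fun A B e he => ⟨he.1.1, he.2⟩
  refine ⟨x, hx, x', hx', ⟨y, hy, a1.mono (hsub2 _ _)⟩, ⟨y', hy', b1.mono (hsub2 _ _)⟩, ?_⟩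
  intro h
  exact hn ((a2.trans (h.mono hsub)).trans b2.symm)

end Pool.Agent.Zk47.NS
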