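import Pool.Agent.Zk72.NS.Stm
import Pool.Agent.Y989.SD.Main

/-!
# SIDE (module for helper72): one arm near a side of a rectangle
-/

set_option autoImplicit false

namespace Pool.Agent.Zk47.NS

open H974 H973 Finset H342P H984P H984N Pool.Agent.Zk36.TT Pool.Agent.Zk72.NS Pool.Agent.Y989.SD

theorem ES_box (a b c d : ℤ) : ES (Icc a b ×ˢ Icc c d) = RE a b c d := by
  ext ⟨x, y, _ | _⟩
  · rw [mem_ES, mem_RE_false]
    simp only [src_mk, tgt_false, Finset.mem_product, Finset.mem_Icc]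
    omega
  · rw [mem_ES, mem_RE_true]
    simp only [src_mk, tgt_true, Finset.mem_product, Finset.mem_Icc]
    omega

theorem reach_mem {T : Finset Vtx} {F : Set Edg} (hF : F ⊆ ↑(ES T)) {u v : Vtx} (h : Reach F u v) :
    u = v ∨ (u ∈ T ∧ v ∈ T) := by
  induction h with
  | refl => exact Or.inl rfl
  | tail _ hs ih =>
    rename_i w w' _
    right
    obtain ⟨e, he, hc⟩ := hs
    have h1 := mem_ES.1 (Finset.mem_coe.1 (hF he))
    rcases hc with ⟨h2, h3⟩ | ⟨h2, h3⟩
    · rw [h2, h3] at h1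
      rcases ih with h4 | h4
      · rw [h4]; exact h1
      · exact ⟨h4.1, h1.2⟩
    · rw [h2, h3] at h1
      rcases ih with h4 | h4
      · rw [h4]; exact ⟨h1.2, h1.1⟩
      · exact ⟨h4.1, h1.1⟩

theorem lp0 : Lp 3 (fun _ => 0) := ⟨rfl, fun x => by simp⟩

theorem flat0 (L : ℤ) (hL : 0 ≤ L) : Flat (fun _ => 0) 0 1 1 L := by
  intro x _
  have h1 : (0 : ℝ) ≤ |(x : ℝ)| := abs_nonneg _
  have h2 : (0 : ℝ) ≤ (L : ℝ) := by exact_mod_cast hL
  simp only [Int.cast_zero, zero_mul, sub_zero, abs_zero, one_mul]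
  positivity

/-- the window at a side -/
theorem window {a b c d : ℤ} {v : Vtx} {k R : ℕ} (hv : inR a b c d v) (hS : Side a b c d v k R)
    {L : ℤ} (hL0 : 0 ≤ L) (hL : 32 * L ≤ R) :
    ∃ v0 : Vtx, |v.1 - v0.1| ≤ k ∧ |v.2 - v0.2| ≤ k ∧ Win (Icc a b ×ˢ Icc c d) v0 L 1 1 := by
  obtain ⟨⟨hv1, hv2⟩, hv3, hv4⟩ := hv
  rcases hS with h | h | h | h
  · refine ⟨(a, v.2), ?_, by simp, (1, 0), by simp, fun _ => 0, 0, lp0, by norm_num, flat0 L hL0, ?_⟩
    · rw [abs_of_nonneg (by simp only; omega)]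
      exact h.1
    · intro y hy
      rw [mem_QB] at hy
      simp only [emb, Finset.mem_product, Finset.mem_Icc]
      omega
  · refine ⟨(b, v.2), ?_, by simp, (-1, 0), by simp, fun _ => 0, 0, lp0, by norm_num, flat0 L hL0, ?_⟩
    · rw [abs_sub_comm, abs_of_nonneg (by simp only; omega)]
      exact h.1
    · intro y hy
      rw [mem_QB] at hy
      simp only [emb, Finset.mem_product, Finset.mem_Icc]
      omega
  · refine ⟨(v.1, c), by simp, ?_, (0, 1), by simp, fun _ => 0, 0, lp0, by norm_num, flat0 L hL0, ?_⟩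
    · rw [abs_of_nonneg (by simp only; omega)]
      exact h.1
    · intro y hy
      rw [mem_QB] at hy
      simp only [emb, Finset.mem_product, Finset.mem_Icc]
      omega
  · refine ⟨(v.1, d), by simp, ?_, (0, -1), by simp, fun _ => 0, 0, lp0, by norm_num, flat0 L hL0, ?_⟩
    · rw [abs_sub_comm, abs_of_nonneg (by simp only; omega)]
      exact h.1
    · intro y hy
      rw [mem_QB] at hy
      simp only [emb, Finset.mem_product, Finset.mem_Icc]
      omega

theorem hok : Ok (fun _ : Edg => (1 / 2 : ℝ)) := fun _ => ⟨by norm_num, by norm_num⟩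

theorem six {x : ℝ} (hx : 0 ≤ x) : (216 * x) ^ ((1 : ℝ) / 3) = 6 * x ^ ((1 : ℝ) / 3) := by
  rw [Real.mul_rpow (by norm_num) hx]
  congr 1
  rw [show (216 : ℝ) = 6 ^ (3 : ℝ) by norm_num, ← Real.rpow_mul (by norm_num)]
  norm_num

theorem prim : ∃ C : ℝ, 1 ≤ C ∧ ∀ (a b c d : ℤ) (v : Vtx) (k R : ℕ), 1 ≤ k → k ≤ R →
    inR a b c d v → Side a b c d v k R →
    P (RE a b c d) (fun F => H12S.Crs v.1 v.2 k R (↑F : Set Edg)) ≤
      C * ((k : ℝ) / R) ^ (1 / 3 : ℝ) := by
  obtain ⟨c0, C0, hc0, hC0, hW⟩ := m_WIN 1 1 one_pos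
  refine ⟨6 * max 1 C0, ?_, ?_⟩
  · have := le_max_left 1 C0
    linarith
  intro a b c d v k R hk hkR hv hS
  have hk0 : (0 : ℝ) < k := by exact_mod_cast hk
  have hR0 : (0 : ℝ) < R := by exact_mod_cast (lt_of_lt_of_le hk hkR)
  have hkR0 : (0 : ℝ) < (k : ℝ) / R := by positivity
  rcases Nat.lt_or_ge R (128 * k) with hR | hR
  · have h1 : (1 : ℝ) ≤ 6 * ((k : ℝ) / R) ^ (1 / 3 : ℝ) := by
      rw [← six hkR0.le]
      apply Real.one_le_rpow _ (by norm_num)
      rw [mul_div_assoc', le_div_iff₀ hR0]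
      have : (R : ℝ) < 128 * k := by exact_mod_cast hR
      linarith
    calc _ ≤ (1 : ℝ) := Pr_le_one hok _ _
      _ ≤ 6 * ((k : ℝ) / R) ^ (1 / 3 : ℝ) := h1
      _ = 6 * 1 * ((k : ℝ) / R) ^ (1 / 3 : ℝ) := by ring
      _ ≤ _ := by gcongr; exact le_max_left _ _
  · set L : ℤ := ((R / 32 : ℕ) : ℤ) with hL
    have hL1 : 32 * L ≤ R := by omega
    have hL2 : 4 * (k : ℤ) ≤ L := by omega
    have hL3 : (R : ℤ) ≤ 64 * L := by omega
    obtain ⟨v0, h1, h2, hWin⟩ := window hv hS (by omega) hL1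
    rw [abs_le] at h1 h2
    have h3 := (hW _ v0 L hWin (2 * k) L (by omega) (by omega) le_rfl).1
    rw [ES_box] at h3
    have h4 : P (RE a b c d) (fun F => H12S.Crs v.1 v.2 k R (↑F : Set Edg)) ≤
        Pr hf (RE a b c d) (XT (Icc a b ×ˢ Icc c d) v0 (2 * k) L) := by
      apply Pr_mono hok
      rintro F hF ⟨x, y, hx, hy, hr⟩
      have h5 := reach_mem (T := Icc a b ×ˢ Icc c d) (F := (↑F : Set Edg))
        (by rw [ES_box]; exact_mod_cast hF) hr
      have hxy : x ≠ y := by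
        rintro rfl
        obtain ⟨⟨_, _⟩, _, _⟩ := hx
        omega
      rcases h5 with h5 | ⟨h5, h6⟩
      · exact absurd h5 hxy
      · obtain ⟨⟨_, _⟩, _, _⟩ := hx
        refine ⟨x, h5, ?_, y, h6, ?_, hr⟩
        · rw [mem_BX]
          omega
        · rw [mem_BX]
          omega
    refine h4.trans (h3.trans ?_)
    have hL0 : (0 : ℝ) < L := by
      have : 0 < L := by omega
      exact_mod_cast this
    have h5 : (((2 * k : ℤ) : ℝ) / L) ≤ 216 * ((k : ℝ) / R) := by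
      rw [mul_div_assoc', div_le_div_iff₀ hL0 hR0]
      have : (R : ℝ) ≤ 64 * L := by exact_mod_cast hL3
      push_cast
      nlinarith
    have h6 : (0 : ℝ) ≤ ((2 * k : ℤ) : ℝ) / L := by
      push_cast
      positivity
    calc C0 * (((2 * k : ℤ) : ℝ) / L) ^ (1 / 3 : ℝ) ≤ C0 * (216 * ((k : ℝ) / R)) ^ (1 / 3 : ℝ) := by
          gcongr
      _ = 6 * C0 * ((k : ℝ) / R) ^ (1 / 3 : ℝ) := by rw [six hkR0.le]; ring
      _ ≤ _ := by gcongr; exact le_max_right _ _

theorem t_SIDE : S_SIDE := by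
  obtain ⟨C, hC, h⟩ := prim
  refine ⟨2 * C, by linarith, ?_⟩
  intro a b c d v k R hk hkR hv hS
  have hk0 : (0 : ℝ) < k := by exact_mod_cast hk
  have hR0 : (0 : ℝ) < R := by exact_mod_cast (lt_of_lt_of_le hk hkR)
  have hkR0 : (0 : ℝ) < (k : ℝ) / R := by positivity
  have hp0 : (0 : ℝ) ≤ ((k : ℝ) / R) ^ (1 / 3 : ℝ) := by positivity
  constructor
  · refine (h a b c d v k R hk hkR hv hS).trans ?_
    gcongr
    linarith
  · rcases Nat.lt_or_ge k R with hlt | hge
    · have h1 := h (a - 1) b (c - 1) d v (k + 1) R (by omega) (by omega) (by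
        obtain ⟨⟨_, _⟩, _, _⟩ := hv
        exact ⟨⟨by omega, by omega⟩, by omega, by omega⟩) (by
        unfold Pool.Agent.Zk72.NS.Side at hS ⊢
        push_cast
        omega)
      have h2 : dmp (RE a b c d) ⊆ RE (a - 1) b (c - 1) d := by
        rintro ⟨x, y, _ | _⟩ he
        · rw [mem_dmp, dls_f, mem_RE_true] at he
          rw [mem_RE_false]
          omega
        · rw [mem_dmp, dls_t, mem_RE_false] at he
          rw [mem_RE_true]
          omega
      have h3 : P (RE a b c d) (fun F => H12S.DCrs v.1 v.2 k R (↑(RE a b c d \ F) : Set Edg)) =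
          Pr (fun _ => (1 / 2 : ℝ)) (dmp (RE a b c d))
            (fun F => H12S.Crs v.1 v.2 k R (↑F : Set Edg)) := by
        rw [pr_dmp]
        have h4 : (fun _ : Edg => (1 / 2 : ℝ)) = fun e => 1 - (fun _ : Edg => (1 / 2 : ℝ)) e := by
          funext e
          norm_num
        conv_rhs => rw [h4]
        rw [Pr_compl (fun _ : Edg => (1 / 2 : ℝ)) (RE a b c d)
          (fun F => H12S.Crs v.1 v.2 k R (↑(dmp F) : Set Edg))]
        apply Pr_congr
        intro F _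
        unfold H12S.Crs H12S.DCrs
        rw [coe_dmp]
        simp only [reach_dl]
      have h5 : Pr (fun _ => (1 / 2 : ℝ)) (dmp (RE a b c d))
          (fun F => H12S.Crs v.1 v.2 k R (↑F : Set Edg)) ≤
          Pr (fun _ => (1 / 2 : ℝ)) (RE (a - 1) b (c - 1) d)
          (fun F => H12S.Crs v.1 v.2 k R (↑F : Set Edg)) := by
        apply Pr_mono_set hok h2
        rintro F G hFG _ ⟨x, y, hx, hy, hr⟩
        exact ⟨x, y, hx, hy, hr.mono (by exact_mod_cast hFG)⟩
      have h6 : Pr (fun _ => (1 / 2 : ℝ)) (RE (a - 1) b (c - 1) d)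
          (fun F => H12S.Crs v.1 v.2 k R (↑F : Set Edg)) ≤
          P (RE (a - 1) b (c - 1) d) (fun F => H12S.Crs v.1 v.2 (k + 1) R (↑F : Set Edg)) := by
        apply Pr_mono hok
        rintro F _ ⟨x, y, hx, hy, hr⟩
        refine ⟨x, y, ?_, hy, hr⟩
        obtain ⟨⟨_, _⟩, _, _⟩ := hx
        push_cast
        exact ⟨⟨by omega, by omega⟩, by omega, by omega⟩
      rw [h3]
      refine (h5.trans (h6.trans h1)).trans ?_
      have h7 : (((k + 1 : ℕ) : ℝ) / R) ^ (1 / 3 : ℝ) ≤ 2 * ((k : ℝ) / R) ^ (1 / 3 : ℝ) := by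
        have h8 : ((k + 1 : ℕ) : ℝ) / R ≤ 2 * ((k : ℝ) / R) := by
          rw [mul_div_assoc']
          gcongr
          push_cast
          have : (1 : ℝ) ≤ k := by exact_mod_cast hk
          linarith
        calc (((k + 1 : ℕ) : ℝ) / R) ^ (1 / 3 : ℝ) ≤ (2 * ((k : ℝ) / R)) ^ (1 / 3 : ℝ) := by gcongr
          _ = 2 ^ (1 / 3 : ℝ) * ((k : ℝ) / R) ^ (1 / 3 : ℝ) :=
            Real.mul_rpow (by norm_num) hkR0.le
          _ ≤ 2 * ((k : ℝ) / R) ^ (1 / 3 : ℝ) := by
            gcongr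
            calc (2 : ℝ) ^ (1 / 3 : ℝ) ≤ 2 ^ (1 : ℝ) :=
                  Real.rpow_le_rpow_of_exponent_le (by norm_num) (by norm_num)
              _ = 2 := Real.rpow_one 2
      calc C * (((k + 1 : ℕ) : ℝ) / R) ^ (1 / 3 : ℝ) ≤ C * (2 * ((k : ℝ) / R) ^ (1 / 3 : ℝ)) := by
            gcongr
        _ = _ := by ring
    · have h1 : (k : ℝ) / R = 1 := by
        have : k = R := le_antisymm hkR hge
        rw [this]
        exact div_self hR0.ne'
      rw [h1, Real.one_rpow, mul_one]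
      calc _ ≤ (1 : ℝ) := Pr_le_one hok _ _
        _ ≤ _ := by linarith

end Pool.Agent.Zk47.NS
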